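import Pool.Agent.Lib_helper66.CT.Defs
import Pool.Agent.Lib_helper51.BD.F1
import Pool.Agent.Lib_helper51.BD.F3
import Pool.Agent.Lib_helper66.TFR.Notions
import Pool.Agent.Lib_helper66.TFR.NotionsP
import Pool.Agent.Lib_helper82.GG.Notions

/-! # Bounds in the charts and compact sets of tangent vectors -/

set_option autoImplicit false
set_option linter.unusedSectionVars false
set_option linter.unusedVariables false
set_option linter.unusedSimpArgs false

open Filter Topology Metric Set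
open scoped Manifold ContDiff

namespace Pool.Agent.CT

open Pool.Agent.BD Pool.Agent.BR Pool.Agent.IS Pool.Agent.ND

section

variable {E X : Type} [NormedAddCommGroup E] [NormedSpace ℂ E]
  [TopologicalSpace X] [ChartedSpace E X] [IsManifold 𝓘(ℂ, E) ω X]

theorem log_eq (y : X) (f : ℂ → X) (z : ℂ) (hf : MDifferentiableAt 𝓘(ℂ, ℂ) 𝓘(ℂ, E) f z)
    (hz : f z ∈ (chartAt E y).source) : z • deriv (fun w => chartAt E y (f w)) z =
      fb y (tangentMap 𝓘(ℂ, ℂ) 𝓘(ℂ, E) f ⟨z, z⟩) := by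
  have : IsManifold 𝓘(ℂ, E) 1 X := IsManifold.of_le (n := ω) le_top
  rw [fb_eq]
  have h1 : MDifferentiableAt 𝓘(ℂ, E) 𝓘(ℂ, E) (chartAt E y) (f z) :=
    mdifferentiableAt_atlas (I := 𝓘(ℂ, E)) (chart_mem_atlas E y) hz
  have h2 := mfderiv_comp z h1 hf
  have h3 := mfderiv_chartAt_eq_tangentCoordChange (I := 𝓘(ℂ, E)) hz
  rw [h3] at h2
  have h4 : (chartAt E y ∘ f) = fun w => chartAt E y (f w) := rfl
  rw [h4, mfderiv_eq_fderiv] at h2
  have h5 := congrArg (fun L : ℂ →L[ℂ] E => L z) h2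
  have h6 : (fderiv ℂ (fun w => chartAt E y (f w)) z) z =
      z • deriv (fun w => chartAt E y (f w)) z := by
    rw [← fderiv_apply_one_eq_deriv, ← map_smul, smul_eq_mul, mul_one]
  rw [← h6]
  exact h5

end

section compact

variable {E X : Type} [NormedAddCommGroup E] [NormedSpace ℂ E] [FiniteDimensional ℂ E]
  [TopologicalSpace X] [CompactSpace X] [T2Space X] [ChartedSpace E X] [IsManifold 𝓘(ℂ, E) ω X]

/-- the forms immerse the pairs of tangent vectors modulo `GL₂` -/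
theorem tau_ample (e : Module.Basis (Fin 2) ℂ E) {k n : ℕ} {s : Fin n → X → X → ℂ} (hk : 0 < k)
    (hs : ∀ i, IsForm E k (s i))
    (h : ∀ x : X, (∃ i, s i x x ≠ 0) ∧
      ∀ (u : E) (m : ℂ), (∀ i, cd E (s i x) x u = m * s i x x) → u = 0) :
    ∀ (x : X) (u v : E), LinearIndependent ℂ ![u, v] →
      (∃ i, tau e k (s i) (BrodyRigid.pair x u v) ≠ 0) ∧
      ∀ (ξ' u' v' : E) (m : ℂ),
        (∀ i, BrodyRigid.pairDeriv (tau e k (s i)) x u v ξ' u' v' =
          m * tau e k (s i) (BrodyRigid.pair x u v)) → ξ' = 0 := by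
  intro x u v huv
  obtain ⟨⟨i, hi⟩, h2⟩ := h x
  have hW : i4_w e u v ≠ 0 := by
    intro h0
    have h3 : ∀ a : E, a = e.repr a 0 • e 0 + e.repr a 1 • e 1 := by
      intro a
      have := e.sum_repr a
      rw [Fin.sum_univ_two] at this
      exact this.symm
    rw [LinearIndependent.pair_iff] at huv
    unfold i4_w at h0
    by_cases hu : e.repr u 0 = 0 ∧ e.repr u 1 = 0
    · have h4 : u = 0 := by rw [h3 u, hu.1, hu.2, zero_smul, zero_smul, add_zero]
      have h5 := huv 1 0 (by rw [h4]; simp)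
      exact one_ne_zero h5.1
    · have h6 : (e.repr v 0) • u + (-(e.repr u 0)) • v = 0 := by
        rw [h3 u, h3 v]
        simp only [map_add, map_smul, Finsupp.coe_add, Finsupp.coe_smul, Pi.add_apply,
          Pi.smul_apply, smul_eq_mul, Module.Basis.repr_self, smul_add, smul_smul]
        simp only [Finsupp.single_apply]
        simp only [Fin.isValue, one_ne_zero, zero_ne_one, if_true, if_false, mul_one, mul_zero,
          add_zero, zero_add, reduceIte]
        have h7 : (e.repr v 0) * (e.repr u 0) = (e.repr u 0) * (e.repr v 0) := mul_comm _ _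
        have h8 : e.repr v 0 * e.repr u 1 = e.repr u 0 * e.repr v 1 := by
          linear_combination -h0
        rw [h8, h7, neg_mul, neg_mul, neg_smul, neg_smul]
        abel
      have h6' : (e.repr v 1) • u + (-(e.repr u 1)) • v = 0 := by
        rw [h3 u, h3 v]
        simp only [map_add, map_smul, Finsupp.coe_add, Finsupp.coe_smul, Pi.add_apply,
          Pi.smul_apply, smul_eq_mul, Module.Basis.repr_self, smul_add, smul_smul]
        simp only [Finsupp.single_apply]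
        simp only [Fin.isValue, one_ne_zero, zero_ne_one, if_true, if_false, mul_one, mul_zero,
          add_zero, zero_add, reduceIte]
        have h7 : (e.repr v 1) * (e.repr u 1) = (e.repr u 1) * (e.repr v 1) := mul_comm _ _
        have h8 : e.repr v 1 * e.repr u 0 = e.repr u 1 * e.repr v 0 := by
          linear_combination h0
        rw [h8, h7, neg_mul, neg_mul, neg_smul, neg_smul]
        abel
      refine hu ⟨?_, ?_⟩
      · have := (huv _ _ h6).2
        exact neg_eq_zero.1 this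
      · have := (huv _ _ h6').2
        exact neg_eq_zero.1 this
  refine ⟨⟨i, mul_ne_zero hi (pow_ne_zero _ hW)⟩, ?_⟩
  intro ξ' u' v' m hm
  have hxs : chartAt E x x ∈ (chartAt E x).target := (chartAt E x).map_source (mem_chart_source E x)
  have hW' := (i4_w_diff e (u, v)).hasFDerivAt
  set dW : ℂ := fderiv ℂ (fun q : E × E => i4_w e q.1 q.2) (u, v) (u', v') with hdW
  refine h2 ξ' (m - k * dW / i4_w e u v) ?_
  intro j
  have h3 := hm j
  have h4 := frm_mfderiv (tau_plane e (hs j)).hol ⟨x, (u, v)⟩ (ξ', (u', v'))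
  change (mfderiv (𝓘(ℂ, E).prod 𝓘(ℂ, E × E)) 𝓘(ℂ, ℂ) (tau e k (s j)) ⟨x, (u, v)⟩
    (ξ', (u', v')) : ℂ) = m * (s j x x * i4_w e u v ^ k) at h3
  rw [h4] at h3
  have h5 : frm_chart (E := E) x (⟨x, (u, v)⟩ : BR.TangentPairs E X) =
      ((chartAt E x x, (u, v)) : E × (E × E)) := by
    rw [frm_apply]
    have h6 : ∀ w : E, tangentCoordChange 𝓘(ℂ, E) x x x w = w := by
      intro w
      rw [tangentCoordChange_self]
      simp only [extChartAt_source]
      exact mem_chart_source E x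
    rw [h6, h6]
  rw [h5] at h3
  have h6 : (fun q : E × (E × E) => tau e k (s j) ((frm_chart (E := E) x).symm q)) =ᶠ[
      𝓝 ((chartAt E x x, (u, v)) : E × (E × E))]
      fun q : E × (E × E) => s j x ((chartAt E x).symm q.1) * i4_w e q.2.1 q.2.2 ^ k := by
    have h7 : ContinuousAt (fun q : E × (E × E) => q.1) (chartAt E x x, (u, v)) :=
      continuous_fst.continuousAt
    filter_upwards [h7.preimage_mem_nhds ((chartAt E x).open_target.mem_nhds hxs)] with q hq
    obtain ⟨ξ, a, b⟩ := q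
    exact tau_symm e (hs j) x hq a b
  rw [h6.fderiv_eq] at h3
  have h7 : HasFDerivAt (fun ξ : E => s j x ((chartAt E x).symm ξ)) (cd E (s j x) x)
      (chartAt E x x) :=
    ((hs j x).1.differentiableAt ((chartAt E x).open_target.mem_nhds hxs)).hasFDerivAt
  have h8 : HasFDerivAt (fun q : E × (E × E) => s j x ((chartAt E x).symm q.1))
      ((cd E (s j x) x).comp (ContinuousLinearMap.fst ℂ E (E × E)))
      ((chartAt E x x, (u, v)) : E × (E × E)) :=
    HasFDerivAt.comp (g := fun ξ : E => s j x ((chartAt E x).symm ξ)) (f := fun q : E × (E × E) => q.1)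
      _ h7 (ContinuousLinearMap.fst ℂ E (E × E)).hasFDerivAt
  have h9 : HasFDerivAt (fun q : E × (E × E) => i4_w e q.2.1 q.2.2)
      ((fderiv ℂ (fun q : E × E => i4_w e q.1 q.2) (u, v)).comp
        (ContinuousLinearMap.snd ℂ E (E × E))) ((chartAt E x x, (u, v)) : E × (E × E)) :=
    HasFDerivAt.comp (g := fun q : E × E => i4_w e q.1 q.2) (f := fun q : E × (E × E) => q.2)
      _ hW' (ContinuousLinearMap.snd ℂ E (E × E)).hasFDerivAt
  have h10 := (h8.mul (h9.pow k)).fderiv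
  have h11 := congrArg (fun L => L (ξ', (u', v'))) h10
  simp only [_root_.add_apply, _root_.smul_apply,
    ContinuousLinearMap.comp_apply, ContinuousLinearMap.coe_fst', ContinuousLinearMap.coe_snd',
    smul_eq_mul, nsmul_eq_mul, (chartAt E x).left_inv (mem_chart_source E x)] at h11
  have h12 : fderiv ℂ (fun q : E × (E × E) =>
      s j x ((chartAt E x).symm q.1) * i4_w e q.2.1 q.2.2 ^ k)
      ((chartAt E x x, (u, v)) : E × (E × E)) (ξ', (u', v')) =
      s j x x * (k * i4_w e u v ^ (k - 1) * dW) + i4_w e u v ^ k * cd E (s j x) x ξ' := h11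
  rw [h12] at h3
  obtain ⟨k', rfl⟩ : ∃ k', k = k' + 1 := ⟨k - 1, by omega⟩
  have h3' : s j x x * (((k' + 1 : ℕ) : ℂ) * i4_w e u v ^ (k' + 1 - 1) * dW) +
      i4_w e u v ^ (k' + 1) * cd E (s j x) x ξ' = m * (s j x x * i4_w e u v ^ (k' + 1)) := h3
  rw [Nat.add_sub_cancel, pow_succ] at h3'
  have h13 : i4_w e u v ^ k' ≠ 0 := pow_ne_zero _ hW
  have h14 : i4_w e u v * cd E (s j x) x ξ' =
      i4_w e u v * (m * s j x x) - s j x x * ((k' + 1 : ℕ) * dW) := by
    apply mul_left_cancel₀ h13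
    linear_combination h3'
  field_simp
  linear_combination h14

theorem i4_ne (e : Module.Basis (Fin 2) ℂ E) {u v : E} (huv : LinearIndependent ℂ ![u, v]) :
    ND.i4_w e u v ≠ 0 := by
  intro h0
  have hcard : Fintype.card (Fin 2) = Module.finrank ℂ E := (Module.finrank_eq_card_basis e).symm
  set B := basisOfLinearIndependentOfCardEqFinrank huv hcard with hB
  have h1 : ∀ x : E, x = B.repr x 0 • u + B.repr x 1 • v := by
    intro x
    have h2 := B.sum_repr x
    rw [Fin.sum_univ_two, hB, coe_basisOfLinearIndependentOfCardEqFinrank] at h2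
    exact h2.symm
  have h3 := i4_w_comb e (B.repr (e 0) 0) (B.repr (e 0) 1) (B.repr (e 1) 0) (B.repr (e 1) 1) u v
  rw [← h1 (e 0), ← h1 (e 1), i4_w_basis, h0, mul_zero] at h3
  exact one_ne_zero h3

theorem veryAmple_old (h : CanonicalVeryAmple E X) : GG.CanonicalVeryAmple E X := by
  obtain ⟨hE, k, n, s, hk, hs, h1, h2⟩ := h
  have e : Module.Basis (Fin 2) ℂ E := (Module.finBasis ℂ E).reindex (finCongr hE)
  refine ⟨hE, k, n, fun i => tau e k (s i), hk,
    fun i => (BrodyRigid.isPlaneForm_iff k _).2 (tau_plane e (hs i)),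
    tau_ample e hk hs h1, ?_⟩
  intro x y u v u' v' c huv huv' h
  have hw := i4_ne e huv
  refine h2 x y (c * ND.i4_w e u' v' ^ k / ND.i4_w e u v ^ k) fun i => ?_
  have h3 : s i x x * ND.i4_w e u v ^ k = c * (s i y y * ND.i4_w e u' v' ^ k) := h i
  field_simp
  linear_combination h3

/-- the bound in the charts gives a compact set of tangent vectors -/
theorem compact_of_bound (V : X → Set X) (b : X → ℝ) (hV : ∀ x, V x ∈ 𝓝 x) :
    ∃ K : Set (TangentBundle 𝓘(ℂ, E) X), IsCompact K ∧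
      ∀ p : TangentBundle 𝓘(ℂ, E) X,
        (∀ x : X, p.1 ∈ V x → p.1 ∈ (chartAt E x).source → ‖fb x p‖ ≤ b x) → p ∈ K := by
  choose W hW hWs K hK h3 using fun x : X => fb_compact (E := E) x (b x)
  obtain ⟨t, ht⟩ := isCompact_univ.elim_nhds_subcover (fun x => V x ∩ W x)
    (fun x _ => inter_mem (hV x) (hW x))
  refine ⟨⋃ x ∈ t, K x, t.isCompact_biUnion fun x _ => hK x, fun p hp => ?_⟩
  obtain ⟨x, hx, hx'⟩ := mem_iUnion₂.1 (ht.2 (mem_univ p.1))
  exact mem_iUnion₂.2 ⟨x, hx, h3 x _ hx'.2 (hp x hx'.1 (hWs x hx'.2))⟩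

/-- the tangent vectors in a compact set satisfy a bound in the charts -/
theorem bound_of_compact {K : Set (TangentBundle 𝓘(ℂ, E) X)} (hK : IsCompact K) :
    ∃ (V : X → Set X) (b : X → ℝ), (∀ x, V x ∈ 𝓝 x) ∧ ∀ p ∈ K, ∀ x : X, p.1 ∈ V x →
      p.1 ∈ (chartAt E x).source ∧ ‖fb x p‖ ≤ b x := by
  choose W hW hWs C hC using fun x : X => fb_bound (E := E) hK x
  exact ⟨W, C, hW, fun p hp x hx => ⟨hWs x hx, hC x p hp hx⟩⟩

theorem deriv_compact (V : X → Set X) (b : X → ℝ) (hV : ∀ x, V x ∈ 𝓝 x) :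
    ∃ K : Set (TangentBundle 𝓘(ℂ, E) X), IsCompact K ∧ ∀ (s : Set ℂ) (f : ℂ → X), IsOpen s →
      DerivBound E V b s f → ∀ z ∈ s, MDifferentiableAt 𝓘(ℂ, ℂ) 𝓘(ℂ, E) f z ∧
        BrodyRigid.velocity (E := E) f z ∈ K := by
  obtain ⟨K, hK, h⟩ := compact_of_bound (E := E) V b hV
  refine ⟨K, hK, fun s f hs hf z hz => ?_⟩
  have h1 : MDifferentiableAt 𝓘(ℂ, ℂ) 𝓘(ℂ, E) f z := hf.1.mdifferentiableAt (hs.mem_nhds hz)
  refine ⟨h1, h _ fun x hx hx' => ?_⟩
  rw [← vel_eq x f z h1 hx']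
  exact hf.2 x z hz hx

theorem deriv_bound {K : Set (TangentBundle 𝓘(ℂ, E) X)} (hK : IsCompact K) :
    ∃ (V : X → Set X) (b : X → ℝ), (∀ x, V x ∈ 𝓝 x) ∧ ∀ (s : Set ℂ) (f : ℂ → X),
      (∀ z ∈ s, MDifferentiableAt 𝓘(ℂ, ℂ) 𝓘(ℂ, E) f z ∧
        BrodyRigid.velocity (E := E) f z ∈ K) → DerivBound E V b s f := by
  obtain ⟨V, b, hV, h⟩ := bound_of_compact hK
  refine ⟨V, b, hV, fun s f hf => ⟨fun z hz => (hf z hz).1.mdifferentiableWithinAt,
    fun x z hz hx => ?_⟩⟩
  obtain ⟨h1, h2⟩ := h _ (hf z hz).2 x hx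
  rw [vel_eq x f z (hf z hz).1 h1]
  exact h2

theorem log_compact (V : X → Set X) (b : X → ℝ) (hV : ∀ x, V x ∈ 𝓝 x) :
    ∃ K : Set (TangentBundle 𝓘(ℂ, E) X), IsCompact K ∧ ∀ (s : Set ℂ) (f : ℂ → X), IsOpen s →
      LogDerivBound E V b s f → ∀ z ∈ s, MDifferentiableAt 𝓘(ℂ, ℂ) 𝓘(ℂ, E) f z ∧
        tangentMap 𝓘(ℂ, ℂ) 𝓘(ℂ, E) f ⟨z, z⟩ ∈ K := by
  obtain ⟨K, hK, h⟩ := compact_of_bound (E := E) V b hV
  refine ⟨K, hK, fun s f hs hf z hz => ?_⟩
  have h1 : MDifferentiableAt 𝓘(ℂ, ℂ) 𝓘(ℂ, E) f z := hf.1.mdifferentiableAt (hs.mem_nhds hz)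
  refine ⟨h1, h _ fun x hx hx' => ?_⟩
  rw [← log_eq x f z h1 hx']
  exact hf.2 x z hz hx

theorem log_bound {K : Set (TangentBundle 𝓘(ℂ, E) X)} (hK : IsCompact K) :
    ∃ (V : X → Set X) (b : X → ℝ), (∀ x, V x ∈ 𝓝 x) ∧ ∀ (s : Set ℂ) (f : ℂ → X),
      (∀ z ∈ s, MDifferentiableAt 𝓘(ℂ, ℂ) 𝓘(ℂ, E) f z ∧
        tangentMap 𝓘(ℂ, ℂ) 𝓘(ℂ, E) f ⟨z, z⟩ ∈ K) → LogDerivBound E V b s f := by
  obtain ⟨V, b, hV, h⟩ := bound_of_compact hK
  refine ⟨V, b, hV, fun s f hf => ⟨fun z hz => (hf z hz).1.mdifferentiableWithinAt,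
    fun x z hz hx => ?_⟩⟩
  obtain ⟨h1, h2⟩ := h _ (hf z hz).2 x hx
  rw [log_eq x f z (hf z hz).1 h1]
  exact h2

end compact

end Pool.Agent.CT
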