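import Pool.Agent.Lib_helper66.CT.A
import Pool.Agent.Lib_helper66.TFR.C
import Pool.Agent.Lib_helper66.TFR.F
import Pool.Agent.Lib_helper82.GG.Main

/-! # Calm discs and thin necks: the theorems for the definitions in `Defs` -/

set_option autoImplicit false
set_option linter.unusedSectionVars false
set_option linter.unusedVariables false

open Filter Topology Metric Set
open scoped Manifold ContDiff

namespace Pool.Agent.CT

open Pool.Agent.BD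

section

variable {E X : Type} [NormedAddCommGroup E] [NormedSpace ℂ E] [FiniteDimensional ℂ E]
  [TopologicalSpace X] [CompactSpace X] [T2Space X] [ConnectedSpace X] [ChartedSpace E X]
  [IsManifold 𝓘(ℂ, E) ω X]

theorem brody_of_bound {V : X → Set X} {b : X → ℝ} (hV : ∀ x, V x ∈ 𝓝 x) {f : ℂ → X}
    (hf : DerivBound E V b univ f) : BrodyRigid.IsBrodyCurve (E := E) f := by
  obtain ⟨K, hK, h⟩ := deriv_compact (E := E) V b hV
  exact ⟨fun z => (h univ f isOpen_univ hf z (mem_univ z)).1, K, hK,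
    fun z => (h univ f isOpen_univ hf z (mem_univ z)).2⟩

theorem bound_of_brody {f : ℂ → X} (hf : BrodyRigid.IsBrodyCurve (E := E) f) :
    ∃ (V : X → Set X) (b : X → ℝ), (∀ x, V x ∈ 𝓝 x) ∧ DerivBound E V b univ f := by
  obtain ⟨h1, K, hK, h2⟩ := hf
  obtain ⟨V, b, hV, h⟩ := deriv_bound hK
  exact ⟨V, b, hV, h univ f fun z _ => ⟨h1 z, h2 z⟩⟩

theorem calm_iff : TorusFree.HasCalmDiscs E X ↔
    ∀ (V : X → Set X) (b : X → ℝ), (∀ x, V x ∈ 𝓝 x) → ∀ U : Set (X × X), IsOpen U →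
      (∀ x, (x, x) ∈ U) → ∀ r : ℝ, ∃ R : ℝ, ∀ f : ℂ → X, DerivBound E V b (ball 0 R) f →
        ∃ z, ball z r ⊆ ball 0 R ∧ ∀ w ∈ ball z r, (f z, f w) ∈ U := by
  constructor
  · intro h V b hV U hU hd r
    obtain ⟨K, hK, h1⟩ := deriv_compact (E := E) V b hV
    obtain ⟨R, hR⟩ := h K hK U hU hd r
    exact ⟨R, fun f hf => hR f (h1 _ f isOpen_ball hf)⟩
  · intro h K hK U hU hd r
    obtain ⟨V, b, hV, h1⟩ := deriv_bound hK
    obtain ⟨R, hR⟩ := h V b hV U hU hd r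
    exact ⟨R, fun f hf => hR f (h1 _ f hf)⟩

theorem limit_iff : (∀ f : ℂ → X, BrodyRigid.IsBrodyCurve (E := E) f →
      ∃ x : X, MinBrody.IsTranslateLimit f (fun _ => x)) ↔
    ∀ (V : X → Set X) (b : X → ℝ), (∀ x, V x ∈ 𝓝 x) → ∀ f : ℂ → X, DerivBound E V b univ f →
      ∃ (z : ℕ → ℂ) (x : X), ∀ w, Tendsto (fun n => f (z n + w)) atTop (𝓝 x) := by
  constructor
  · intro h V b hV f hf
    obtain ⟨x, z, hz⟩ := h f (brody_of_bound hV hf)
    exact ⟨z, x, hz⟩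
  · intro h f hf
    obtain ⟨V, b, hV, hb⟩ := bound_of_brody hf
    obtain ⟨z, x, hz⟩ := h V b hV f hb
    exact ⟨x, z, hz⟩

theorem calm_main (hX : CanonicalVeryAmple E X) :
    List.TFAE [∀ g : ℂ → X, IsElliptic E g → ∀ z z', g z = g z',
      ∀ (W : Type) [NormedAddCommGroup W] [NormedSpace ℂ W] [FiniteDimensional ℂ W],
        ConstantOnTori E X W,
      ∀ (V : X → Set X) (b : X → ℝ), (∀ x, V x ∈ 𝓝 x) → ∀ f : ℂ → X, DerivBound E V b univ f →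
        ∃ (z : ℕ → ℂ) (x : X), ∀ w, Tendsto (fun n => f (z n + w)) atTop (𝓝 x),
      ∀ (V : X → Set X) (b : X → ℝ), (∀ x, V x ∈ 𝓝 x) → ∀ U : Set (X × X), IsOpen U →
        (∀ x, (x, x) ∈ U) → ∀ r : ℝ, ∃ R : ℝ, ∀ f : ℂ → X, DerivBound E V b (ball 0 R) f →
          ∃ z, ball z r ⊆ ball 0 R ∧ ∀ w ∈ ball z r, (f z, f w) ∈ U] := by
  have h := veryAmple_old hX
  have h1 := TFR.calm_main h.canonicalAmple (GG.has_invariant h)
  rw [noElliptic_iff, noTorus_iff, limit_iff, calm_iff] at h1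
  exact h1

theorem punctured_iff :
    (∀ F : ℂ → X, Cylinder.IsPuncturedBrody E F → Cylinder.ExtendsOverZero E F) ↔
    ∀ (V : X → Set X) (b : X → ℝ), (∀ x, V x ∈ 𝓝 x) → ∀ F : ℂ → X,
      LogDerivBound E V b (ball 0 1 \ {0}) F →
        ∃ F' : ℂ → X, MDifferentiableOn 𝓘(ℂ, ℂ) 𝓘(ℂ, E) F' (ball 0 1) ∧
          ∀ w ∈ ball (0 : ℂ) 1 \ {0}, F' w = F w := by
  have hmem : ∀ w : ℂ, w ∈ ball (0 : ℂ) 1 \ {0} ↔ w ≠ 0 ∧ ‖w‖ < 1 := by
    intro w
    rw [Set.mem_sdiff, mem_ball_zero_iff, mem_singleton_iff]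
    exact and_comm
  have hop : IsOpen (ball (0 : ℂ) 1 \ {0}) := isOpen_ball.sdiff isClosed_singleton
  have hext : ∀ F : ℂ → X, Cylinder.ExtendsOverZero E F ↔
      ∃ F' : ℂ → X, MDifferentiableOn 𝓘(ℂ, ℂ) 𝓘(ℂ, E) F' (ball 0 1) ∧
          ∀ w ∈ ball (0 : ℂ) 1 \ {0}, F' w = F w := by
    intro F
    refine exists_congr fun F' => and_congr ?_ ?_
    · constructor
      · exact fun h w hw => (h w (mem_ball_zero_iff.1 hw)).mdifferentiableWithinAt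
      · exact fun h w hw => h.mdifferentiableAt (isOpen_ball.mem_nhds (mem_ball_zero_iff.2 hw))
    · constructor
      · exact fun h w hw => h w ((hmem w).1 hw).1 ((hmem w).1 hw).2
      · exact fun h w hw hw' => h w ((hmem w).2 ⟨hw, hw'⟩)
  constructor
  · intro h V b hV F hF
    obtain ⟨K, hK, h1⟩ := log_compact (E := E) V b hV
    refine (hext F).1 (h F ⟨fun w hw hw' => ?_, K, hK, fun w hw hw' => ?_⟩)
    · exact (h1 _ F hop hF w ((hmem w).2 ⟨hw, hw'⟩)).1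
    · exact (h1 _ F hop hF w ((hmem w).2 ⟨hw, hw'⟩)).2
  · rintro h F ⟨h1, K, hK, h2⟩
    obtain ⟨V, b, hV, h3⟩ := log_bound hK
    refine (hext F).2 (h V b hV F (h3 _ F fun w hw => ⟨?_, ?_⟩))
    · exact h1 w ((hmem w).1 hw).1 ((hmem w).1 hw).2
    · exact h2 w ((hmem w).1 hw).1 ((hmem w).1 hw).2

theorem periodic_iff :
    (∀ f : ℂ → X, BrodyRigid.IsBrodyCurve (E := E) f → ∀ p : ℂ, p ≠ 0 →
      (∀ z, f (z + p) = f z) → ∀ z z', f z = f z') ↔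
    ∀ (V : X → Set X) (b : X → ℝ), (∀ x, V x ∈ 𝓝 x) → ∀ f : ℂ → X, DerivBound E V b univ f →
      ∀ p : ℂ, p ≠ 0 → (∀ z, f (z + p) = f z) → ∀ z z', f z = f z' := by
  constructor
  · intro h V b hV f hf
    exact h f (brody_of_bound hV hf)
  · intro h f hf
    obtain ⟨V, b, hV, hb⟩ := bound_of_brody hf
    exact h V b hV f hb

theorem necks_iff : TorusFree.HasThinNecks E X ↔
    ∀ (V : X → Set X) (b : X → ℝ), (∀ x, V x ∈ 𝓝 x) → ∀ U : Set (X × X), IsOpen U →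
      (∀ x, (x, x) ∈ U) → ∃ R : ℝ, ∀ f : ℂ → X,
        LogDerivBound E V b {w | 1 / R < ‖w‖ ∧ ‖w‖ < R} f →
          ∀ w w' : ℂ, ‖w‖ = 1 → ‖w'‖ = 1 → (f w, f w') ∈ U := by
  have hop : ∀ R : ℝ, IsOpen {w : ℂ | 1 / R < ‖w‖ ∧ ‖w‖ < R} := fun R =>
    (isOpen_lt continuous_const continuous_norm).inter (isOpen_lt continuous_norm continuous_const)
  constructor
  · intro h V b hV U hU hd
    obtain ⟨K, hK, h1⟩ := log_compact (E := E) V b hV
    obtain ⟨R, hR⟩ := h K hK U hU hd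
    exact ⟨R, fun f hf => hR f fun w hw hw' => h1 _ f (hop R) hf w ⟨hw, hw'⟩⟩
  · intro h K hK U hU hd
    obtain ⟨V, b, hV, h1⟩ := log_bound hK
    obtain ⟨R, hR⟩ := h V b hV U hU hd
    exact ⟨R, fun f hf => hR f (h1 _ f fun w hw => hf w hw.1 hw.2)⟩

theorem necks_main (hX : CanonicalVeryAmple E X) :
    List.TFAE [∀ g : ℂ → X, IsElliptic E g → ∀ z z', g z = g z',
      ∀ (W : Type) [NormedAddCommGroup W] [NormedSpace ℂ W] [FiniteDimensional ℂ W],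
        ConstantOnTori E X W,
      ∀ (V : X → Set X) (b : X → ℝ), (∀ x, V x ∈ 𝓝 x) → ∀ f : ℂ → X, DerivBound E V b univ f →
        ∀ p : ℂ, p ≠ 0 → (∀ z, f (z + p) = f z) → ∀ z z', f z = f z',
      ∀ (V : X → Set X) (b : X → ℝ), (∀ x, V x ∈ 𝓝 x) → ∀ F : ℂ → X,
        LogDerivBound E V b (ball 0 1 \ {0}) F →
          ∃ F' : ℂ → X, MDifferentiableOn 𝓘(ℂ, ℂ) 𝓘(ℂ, E) F' (ball 0 1) ∧
            ∀ w ∈ ball (0 : ℂ) 1 \ {0}, F' w = F w,
      ∀ (V : X → Set X) (b : X → ℝ), (∀ x, V x ∈ 𝓝 x) → ∀ U : Set (X × X), IsOpen U →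
        (∀ x, (x, x) ∈ U) → ∃ R : ℝ, ∀ f : ℂ → X,
          LogDerivBound E V b {w | 1 / R < ‖w‖ ∧ ‖w‖ < R} f →
            ∀ w w' : ℂ, ‖w‖ = 1 → ‖w'‖ = 1 → (f w, f w') ∈ U] := by
  have h := veryAmple_old hX
  have h1 := TFR.necks_main h.canonicalAmple (GG.has_invariant h)
  rw [noElliptic_iff, noTorus_iff, punctured_iff, periodic_iff, necks_iff] at h1
  tfae_have 1 ↔ 2 := h1.out 0 1
  tfae_have 1 ↔ 3 := h1.out 0 3
  tfae_have 1 ↔ 4 := h1.out 0 2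
  tfae_have 1 ↔ 5 := h1.out 0 4
  tfae_finish

end

end Pool.Agent.CT
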