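import Pool.Agent.Lib_helper51.BD.Defs

/-! # Calm discs and thin necks on surfaces (MP_45e720_ag): definitions for the statements

The complex manifolds and the pluricanonical forms are as in `Pool.Agent.Lib_helper51.BD.Defs`. A
bound for the derivatives of holomorphic maps to the compact manifold `X` is given by
neighbourhoods `V x` of the points `x` and numbers `b x`: at the points which are mapped to `V x`
the derivative in the chart at `x` is at most `b x`. (For compact `X` this is the same as a bound
for some hermitian metric.) -/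

set_option autoImplicit false

open Filter Topology
open scoped Manifold ContDiff

namespace Pool.Agent.CT

section

variable (E : Type) {X : Type} [NormedAddCommGroup E] [NormedSpace ℂ E] [TopologicalSpace X]
  [ChartedSpace E X]

/-- `f` is a holomorphic map from the open set `s` to `X` whose derivative is bounded by `V`, `b`. -/
def DerivBound (V : X → Set X) (b : X → ℝ) (s : Set ℂ) (f : ℂ → X) : Prop :=
  MDifferentiableOn 𝓘(ℂ, ℂ) 𝓘(ℂ, E) f s ∧ ∀ x : X, ∀ z ∈ s, f z ∈ V x →
    ‖deriv (fun w => chartAt E x (f w)) z‖ ≤ b x

/-- `f` is a holomorphic map from the open set `s` to `X`, and `z f' z` is bounded by `V`, `b`. -/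
def LogDerivBound (V : X → Set X) (b : X → ℝ) (s : Set ℂ) (f : ℂ → X) : Prop :=
  MDifferentiableOn 𝓘(ℂ, ℂ) 𝓘(ℂ, E) f s ∧ ∀ x : X, ∀ z ∈ s, f z ∈ V x →
    ‖z • deriv (fun w => chartAt E x (f w)) z‖ ≤ b x

variable (X)

/-- `X` is a surface whose canonical bundle `K` is ample: for some `k > 0` there are sections of the
`k`-th power of `K` which embed `X` in a projective space (they have no common zero, they separate
the tangent vectors and the points). -/
def CanonicalVeryAmple : Prop :=
  Module.finrank ℂ E = 2 ∧ ∃ (k n : ℕ) (s : Fin n → X → X → ℂ), 0 < k ∧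
    (∀ i, BD.IsForm E k (s i)) ∧
    (∀ x : X, (∃ i, s i x x ≠ 0) ∧
      ∀ (u : E) (m : ℂ), (∀ i, BD.cd E (s i x) x u = m * s i x x) → u = 0) ∧
    ∀ (x y : X) (c : ℂ), (∀ i, s i x x = c * s i y y) → x = y

end

end Pool.Agent.CT
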